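import Pool.Agent.Helper48_HM.Main

/-!
# Locally compact groups with all countable subgroups minimal are metrizable

This is a strengthening of a positive answer to Q1 of MP_b90438_al (only the countable subgroups
are assumed to be minimal, and the group may live in any universe).
-/

set_option autoImplicit false

namespace Pool.Agent.Results.MP_b90438_al.CountablyMinimal

/-- Let `G` be a locally compact Hausdorff group such that every *countable* subgroup `H` of `G`,
with the subspace topology, is minimal (every Hausdorff group topology `τ` on `H` that is coarser
than the subspace topology is equal to it; in Mathlib `s ≤ τ` means that `τ` is coarser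
than `s`). Then `G` is metrizable. -/
theorem result {G : Type*} [Group G] [t : TopologicalSpace G] [IsTopologicalGroup G] [T2Space G]
    [LocallyCompactSpace G]
    (hmin : ∀ H : Subgroup G, Countable H → ∀ τ : TopologicalSpace H,
      TopologicalSpace.induced (Subtype.val : H → G) t ≤ τ →
      @IsTopologicalGroup H τ _ → @T2Space H τ →
      τ = TopologicalSpace.induced (Subtype.val : H → G) t) :
    TopologicalSpace.MetrizableSpace G :=
  Pool.Agent.Helper48_HM.metrizable_of_minimal hmin

end Pool.Agent.Results.MP_b90438_al.CountablyMinimal
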